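import Pool.Agent.Helper73.LL.Goals
import Pool.Agent.Helper31.W.DimBound

/-! Packet LL-OVER. -/

set_option linter.unusedSectionVars false

namespace Pool.Agent.Helper28.LL

open Matrix Pool.Agent.Helper15.An Pool.Agent.Helper6.W Pool.Agent.Helper73.LL
  Pool.Agent.Helper31.W
open scoped ComplexOrder

section
variable {d : Type} [Fintype d] [DecidableEq d]

theorem topP_sq {T : Matrix d d ℂ} (hT : T.IsHermitian) (θ : ℝ) :
    topP hT θ * topP hT θ = topP hT θ := by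
  unfold topP
  rw [Matrix.mul_assoc, ← Matrix.mul_assoc (topIso hT θ)ᴴ, topIso_conj_mul, Matrix.one_mul]

theorem proj_split {P : Matrix d d ℂ} (hP : P.IsHermitian) (hPP : P * P = P) (z : d → ℂ) :
    nrm2 ((1 - P) *ᵥ z) = nrm2 z - nrm2 (P *ᵥ z) := by
  rw [nrm2_mulVec, nrm2_mulVec, ← qf_one z, ← qf_sub]
  congr 1
  rw [conjTranspose_sub, conjTranspose_one, hP.eq, hPP, Matrix.sub_mul, Matrix.mul_sub,
    Matrix.mul_sub, hPP]
  simp

theorem proj_contr {P : Matrix d d ℂ} (hP : P.IsHermitian) (hPP : P * P = P) (z : d → ℂ) :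
    nm (P *ᵥ z) ≤ nm z := by
  have h1 := proj_split hP hPP z
  have := nrm2_nonneg ((1 - P) *ᵥ z)
  exact nm_mono (by linarith)

theorem coproj_contr {P : Matrix d d ℂ} (hP : P.IsHermitian) (hPP : P * P = P) (z : d → ℂ) :
    nm ((1 - P) *ᵥ z) ≤ nm z := by
  have h1 := proj_split hP hPP z
  have := nrm2_nonneg (P *ᵥ z)
  exact nm_mono (by linarith)

theorem nm_sq (v : d → ℂ) : nm v ^ 2 = nrm2 v := by
  rw [nm, Real.sq_sqrt (nrm2_nonneg _)]

theorem nm_unitary {x : Matrix d d ℂ} (hx : xᴴ * x = 1) (v : d → ℂ) : nm (x *ᵥ v) = nm v := by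
  rw [nm, nm, nrm2_unitary hx]

theorem nm_smul (c : ℝ) (v : d → ℂ) : nm (c • v) = |c| * nm v := by
  rw [nm_eq, nm_eq, WithLp.toLp_smul, norm_smul, Real.norm_eq_abs]

theorem nm_neg (v : d → ℂ) : nm (-v) = nm v := by
  rw [nm_eq, nm_eq, WithLp.toLp_neg, norm_neg]

theorem nm_sub (v w : d → ℂ) : nm (v - w) ≤ nm v + nm w := by
  rw [nm_eq, nm_eq, nm_eq]
  exact norm_sub_le (WithLp.toLp 2 v : EuclideanSpace ℂ d) (WithLp.toLp 2 w)

theorem nm_sum {ι : Type} (s : Finset ι) (f : ι → d → ℂ) :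
    nm (∑ i ∈ s, f i) ≤ ∑ i ∈ s, nm (f i) := by
  simp_rw [nm_eq]
  rw [WithLp.toLp_sum]
  exact norm_sum_le s _

/-- Cauchy-Schwarz -/
theorem re_dot_le (w z : d → ℂ) : (star w ⬝ᵥ z).re ≤ nm w * nm z := by
  rw [nm_eq, nm_eq]
  have h := re_inner_le_norm (𝕜 := ℂ) (WithLp.toLp 2 w : EuclideanSpace ℂ d) (WithLp.toLp 2 z)
  rw [EuclideanSpace.inner_eq_star_dotProduct] at h
  rw [dotProduct_comm]
  exact h

theorem nm_avgRe_le {m : ℕ} (hm : 0 < m) (x : Fin m → Matrix d d ℂ)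
    (hx : ∀ l, (x l)ᴴ * x l = 1) (v : d → ℂ) : nm (avgRe x *ᵥ v) ≤ nm v := by
  have hm' : (0 : ℝ) < m := by exact_mod_cast hm
  unfold avgRe
  rw [Matrix.smul_mulVec, nm_smul, Matrix.sum_mulVec, abs_of_pos (by positivity)]
  have h1 : nm (∑ l, (x l + (x l)ᴴ) *ᵥ v) ≤ ∑ l : Fin m, (nm v + nm v) := by
    refine (nm_sum _ _).trans (Finset.sum_le_sum fun l _ => ?_)
    rw [Matrix.add_mulVec]
    refine (nm_add _ _).trans (le_of_eq ?_)
    rw [nm_unitary (hx l), nm_unitary]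
    rw [conjTranspose_conjTranspose]
    exact mul_eq_one_comm.1 (hx l)
  rw [Finset.sum_const, Finset.card_univ, Fintype.card_fin, nsmul_eq_mul] at h1
  calc (2 * (m : ℝ))⁻¹ * nm (∑ l, (x l + (x l)ᴴ) *ᵥ v)
      ≤ (2 * (m : ℝ))⁻¹ * (m * (nm v + nm v)) := by gcongr
    _ = nm v := by field_simp; ring

theorem avgRe_le_one' {m : ℕ} (hm : 0 < m) (x : Fin m → Matrix d d ℂ)
    (hx : ∀ l, (x l)ᴴ * x l = 1) : ((1 : ℝ) • (1 : Matrix d d ℂ) - avgRe x).PosSemidef := by
  refine posSemidef_of_qf ?_ fun v => ?_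
  · unfold Matrix.IsHermitian
    rw [conjTranspose_sub, (avgRe_isHermitian x).eq]
    simp
  · rw [qf_sub, qf_smul, qf_one, one_mul, sub_nonneg]
    have h := re_dot_le v (avgRe x *ᵥ v)
    have h2 := nm_avgRe_le hm x hx v
    have h3 := nm_nonneg v
    calc qf (avgRe x) v ≤ nm v * nm (avgRe x *ᵥ v) := h
      _ ≤ nm v * nm v := by gcongr
      _ = nrm2 v := by rw [← nm_sq]; ring

/-- splitting off one member of the average -/
theorem avgRe_split {k : ℕ} (hk : 0 < k) (u : Fin (k + 1) → Matrix d d ℂ) (l : Fin (k + 1)) :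
    ((k : ℝ) + 1) • avgRe u = avgRe (fun _ : Fin 1 => u l) +
      (k : ℝ) • avgRe (fun i : Fin k => u (l.succAbove i)) := by
  have hk' : (k : ℝ) ≠ 0 := by positivity
  have hk1 : (k : ℝ) + 1 ≠ 0 := by positivity
  unfold avgRe
  rw [smul_smul, smul_smul, Fin.sum_univ_succAbove _ l, smul_add]
  push_cast
  congr 1
  · rw [Fin.sum_univ_one]
    congr 1
    field_simp
  · congr 1
    field_simp

theorem eig_mulVec {A : Matrix d d ℂ} (hA : A.IsHermitian) (i : d) :
    A *ᵥ (fun a => (hA.eigenvectorUnitary : Matrix d d ℂ) a i) =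
      hA.eigenvalues i • (fun a => (hA.eigenvectorUnitary : Matrix d d ℂ) a i) := by
  have h := hA.mulVec_eigenvectorBasis i
  have e : (fun a => (hA.eigenvectorUnitary : Matrix d d ℂ) a i) =
      ⇑(hA.eigenvectorBasis i) := by
    ext a
    rw [IsHermitian.eigenvectorUnitary_apply]
  rw [e]
  exact h

/-- an eigenvector of the average near the top is close to the near-invariant space of the
others -/
theorem leak {k : ℕ} (hk : 0 < k) (u : Fin (k + 1) → Matrix d d ℂ)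
    (hu : ∀ l, (u l)ᴴ * u l = 1) (l : Fin (k + 1)) (δ δ' lam : ℝ)
    (h1 : δ' + 80 / ((k : ℝ) + 1) ≤ δ) (v : d → ℂ) (hv : nm v = 1)
    (hev : avgRe u *ᵥ v = lam • v) (hlam : 1 - δ' ≤ lam) :
    nm ((1 - topP (avgRe_isHermitian (fun i : Fin k => u (l.succAbove i))) (1 - δ)) *ᵥ v) ≤
      1 / 40 := by
  set hT := avgRe_isHermitian (fun i : Fin k => u (l.succAbove i)) with hTd
  set T := avgRe (fun i : Fin k => u (l.succAbove i)) with hTT
  set P := topP hT (1 - δ) with hPd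
  have hPH : P.IsHermitian := topP_isHermitian hT _
  have hPP : P * P = P := topP_sq hT _
  set w := (1 - P) *ᵥ v with hw
  have hk1 : (0 : ℝ) < (k : ℝ) + 1 := by positivity
  -- the difference
  have hdiff : ((k : ℝ) + 1) • (lam • v - T *ᵥ v) =
      avgRe (fun _ : Fin 1 => u l) *ᵥ v - T *ᵥ v := by
    have h := congrArg (fun M => M *ᵥ v) (avgRe_split hk u l)
    simp only [Matrix.smul_mulVec, Matrix.add_mulVec] at h
    rw [hev] at h
    rw [smul_sub, h]
    module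
  have hnd : nm (lam • v - T *ᵥ v) ≤ 2 / ((k : ℝ) + 1) := by
    have h2 := congrArg nm hdiff
    rw [nm_smul, abs_of_pos hk1] at h2
    rw [le_div_iff₀ hk1, mul_comm, h2]
    refine (nm_sub _ _).trans ?_
    have h3 := nm_avgRe_le (one_pos) (fun _ : Fin 1 => u l) (fun _ => hu l) v
    have h4 := nm_avgRe_le hk (fun i : Fin k => u (l.succAbove i)) (fun _ => hu _) v
    rw [hv] at h3 h4
    linarith
  -- the gap
  have hgap := qf_nonneg (gap_off_top hT (avgRe_le_one' hk _ fun _ => hu _) (1 - δ)) w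
  have hPw : (1 - P) *ᵥ w = w := by
    rw [hw, Matrix.mulVec_mulVec]
    congr 1
    rw [Matrix.sub_mul, Matrix.mul_sub, Matrix.mul_sub, hPP]
    simp
  have hqw : qf (1 - P) w = nrm2 w := by
    unfold qf
    rw [hPw, nrm2_eq]
  rw [qf_sub, qf_sub, qf_smul, qf_smul, qf_one] at hgap
  have hqw' : qf (1 - topIso hT (1 - δ) * (topIso hT (1 - δ))ᴴ) w = nrm2 w := hqw
  rw [hqw'] at hgap
  -- the cross term
  have hcomm : P * T = T * P := topIso_comm hT (1 - δ)
  have hcross : lam * nrm2 w - qf T w = (star w ⬝ᵥ (lam • v - T *ᵥ v)).re := by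
    have e1 : lam * nrm2 w - qf T w = (star w ⬝ᵥ (lam • w - T *ᵥ w)).re := by
      rw [dotProduct_sub, Complex.sub_re, dotProduct_smul, nrm2_eq]
      simp [qf]
    have e2 : lam • w - T *ᵥ w = (1 - P) *ᵥ (lam • v - T *ᵥ v) := by
      rw [hw, Matrix.mulVec_sub, Matrix.mulVec_smul, Matrix.mulVec_mulVec, Matrix.mulVec_mulVec]
      congr 2
      rw [Matrix.sub_mul, Matrix.mul_sub, hcomm]
      simp
    have e3 : ∀ z : d → ℂ, star w ⬝ᵥ ((1 - P) *ᵥ z) = star w ⬝ᵥ z := by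
      intro z
      rw [Matrix.dotProduct_mulVec]
      congr 1
      have e4 : star w ᵥ* (1 - P) = star ((1 - P)ᴴ *ᵥ w) := by
        rw [star_mulVec (1 - P)ᴴ w, conjTranspose_conjTranspose]
      rw [e4, conjTranspose_sub, conjTranspose_one, hPH.eq, hPw]
    rw [e1, e2, e3]
  have hCS := re_dot_le w (lam • v - T *ᵥ v)
  rw [← hcross] at hCS
  have hw0 := nm_nonneg w
  have h5 : (80 / ((k : ℝ) + 1)) * nm w ^ 2 ≤ nm w * (2 / ((k : ℝ) + 1)) := by
    have h6 : nm w * nm (lam • v - T *ᵥ v) ≤ nm w * (2 / ((k : ℝ) + 1)) := by gcongr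
    have h7 : (80 / ((k : ℝ) + 1)) * nm w ^ 2 ≤ (δ - δ') * nrm2 w := by
      rw [nm_sq]
      exact mul_le_mul_of_nonneg_right (by linarith) (nrm2_nonneg w)
    have h8 : (1 - δ') * nrm2 w ≤ lam * nrm2 w :=
      mul_le_mul_of_nonneg_right hlam (nrm2_nonneg w)
    nlinarith
  rw [div_mul_eq_mul_div, ← mul_div_assoc, div_le_div_iff_of_pos_right hk1] at h5
  rcases hw0.eq_or_lt with h9 | h9
  · rw [← h9]; norm_num
  · nlinarith

/-- the overlap form at an eigenvector near the top -/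
theorem overlap_lower {P U : Matrix d d ℂ} (hP : P.IsHermitian) (hPP : P * P = P)
    (hU : Uᴴ * U = 1) (v : d → ℂ) (hv : nm v = 1) (hw : nm ((1 - P) *ᵥ v) ≤ 1 / 40) :
    361 / 400 - 19 / 10 * nm (U *ᵥ v - v) ≤ qf (ovM P U) v := by
  set D := nm (U *ᵥ v - v) with hD
  have hD0 : 0 ≤ D := nm_nonneg _
  have hU' : (Uᴴ)ᴴ * Uᴴ = 1 := by
    rw [conjTranspose_conjTranspose]
    exact mul_eq_one_comm.1 hU
  set Pu := Uᴴ * P * U with hPu
  have e1 : qf (ovM P U) v = nm (P *ᵥ (Pu *ᵥ v)) ^ 2 := by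
    rw [nm_sq, Matrix.mulVec_mulVec, nrm2_mulVec]
    congr 1
    have hPuH : Puᴴ = Pu := by
      rw [hPu]
      simp only [conjTranspose_mul, conjTranspose_conjTranspose, hP.eq, Matrix.mul_assoc]
    rw [conjTranspose_mul, hPuH, hP.eq]
    unfold ovM
    calc Pu * P * Pu = Pu * (P * P) * Pu := by rw [hPP]
      _ = Pu * P * (P * Pu) := by simp only [Matrix.mul_assoc]
  -- `v - Pu v`
  have e2 : nm (v - Pu *ᵥ v) ≤ 1 / 40 + D := by
    have h1 : v - Pu *ᵥ v = Uᴴ *ᵥ ((1 - P) *ᵥ (U *ᵥ v)) := by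
      rw [Matrix.mulVec_mulVec, Matrix.mulVec_mulVec, Matrix.mul_sub,
        Matrix.mul_one, Matrix.sub_mul, hU, ← hPu, Matrix.sub_mulVec, Matrix.one_mulVec]
    rw [h1, nm_unitary hU']
    have h2 : (1 - P) *ᵥ (U *ᵥ v) = (1 - P) *ᵥ v + (1 - P) *ᵥ (U *ᵥ v - v) := by
      rw [← Matrix.mulVec_add]
      congr 1
      abel
    rw [h2]
    refine (nm_add _ _).trans ?_
    have h3 := coproj_contr hP hPP (U *ᵥ v - v)
    linarith
  have e3 : 19 / 20 - D ≤ nm (P *ᵥ (Pu *ᵥ v)) := by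
    have h1 : v = P *ᵥ (Pu *ᵥ v) + (P *ᵥ (v - Pu *ᵥ v) + (1 - P) *ᵥ v) := by
      simp only [Matrix.mulVec_sub, Matrix.sub_mulVec, Matrix.one_mulVec]
      abel
    have h2 : nm v ≤ nm (P *ᵥ (Pu *ᵥ v)) + (nm (P *ᵥ (v - Pu *ᵥ v)) + nm ((1 - P) *ᵥ v)) := by
      conv_lhs => rw [h1]
      refine (nm_add _ _).trans ?_
      gcongr
      exact nm_add _ _
    have h3 := proj_contr hP hPP (v - Pu *ᵥ v)
    linarith
  rw [e1]
  have h0 := nm_nonneg (P *ᵥ (Pu *ᵥ v))
  rcases le_total D (19 / 20) with h | h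
  · have h4 : (19 / 20 - D) ^ 2 ≤ nm (P *ᵥ (Pu *ᵥ v)) ^ 2 := pow_le_pow_left₀ (by linarith) e3 2
    nlinarith [sq_nonneg D]
  · have := sq_nonneg (nm (P *ᵥ (Pu *ᵥ v)))
    nlinarith

/-- `0 ≤ G ≤ 1` with at most `R` eigenvalues at least `1 / 4` -/
theorem top_sum_le {G A : Matrix d d ℂ} (hG : G.IsHermitian) (hG1 : ∀ i, hG.eigenvalues i ≤ 1)
    (hA : A.IsHermitian) (S : Finset d) :
    ∑ i ∈ S, qf G (fun a => (hA.eigenvectorUnitary : Matrix d d ℂ) a i) ≤
      ((Finset.univ.filter fun i => (1 / 4 : ℝ) ≤ hG.eigenvalues i).card : ℝ) +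
        1 / 4 * S.card := by
  classical
  set V := hA.eigenvectorUnitary with hV
  set W := hG.eigenvectorUnitary with hW
  set c : d → d → ℝ := fun i j =>
    ‖((W : Matrix d d ℂ)ᴴ *ᵥ (fun a => (V : Matrix d d ℂ) a i)) j‖ ^ 2 with hc
  have hc0 : ∀ i j, 0 ≤ c i j := fun i j => by positivity
  have h1 : ∀ i, qf G (fun a => (V : Matrix d d ℂ) a i) = ∑ j, hG.eigenvalues j * c i j := by
    intro i
    have := qf_conj_diag W hG.eigenvalues (fun a => (V : Matrix d d ℂ) a i)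
    rw [← spec_decomp hG] at this
    exact this
  have h2 : ∀ i, ∑ j, c i j = 1 := by
    intro i
    have h := nrm2_conj_unitary W (fun a => (V : Matrix d d ℂ) a i)
    rw [nrm2_col] at h
    exact h
  have h3 : ∀ j, ∑ i, c i j = 1 := by
    intro j
    have h := nrm2_conj_unitary V (fun a => (W : Matrix d d ℂ) a j)
    rw [nrm2_col] at h
    rw [← h]
    unfold nrm2
    refine Finset.sum_congr rfl fun i _ => ?_
    rw [hc]
    simp only
    congr 1
    have e : ((W : Matrix d d ℂ)ᴴ *ᵥ (fun a => (V : Matrix d d ℂ) a i)) j =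
        star (((V : Matrix d d ℂ)ᴴ *ᵥ (fun a => (W : Matrix d d ℂ) a j)) i) := by
      simp only [Matrix.mulVec, dotProduct, conjTranspose_apply, star_sum, star_mul', star_star]
      exact Finset.sum_congr rfl fun a _ => mul_comm _ _
    rw [e, norm_star]
  have h4 : ∀ i, ∑ j, hG.eigenvalues j * c i j ≤
      (∑ j ∈ Finset.univ.filter (fun j => (1 / 4 : ℝ) ≤ hG.eigenvalues j), c i j) + 1 / 4 := by
    intro i
    have e1 : (1 / 4 : ℝ) = ∑ j, 1 / 4 * c i j := by rw [← Finset.mul_sum, h2, mul_one]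
    rw [Finset.sum_filter]
    conv_rhs => rw [e1]
    rw [← Finset.sum_add_distrib]
    refine Finset.sum_le_sum fun j _ => ?_
    have := hc0 i j
    split_ifs with h
    · nlinarith [hG1 j]
    · rw [not_le] at h
      nlinarith
  calc ∑ i ∈ S, qf G (fun a => (V : Matrix d d ℂ) a i)
      ≤ ∑ i ∈ S, ((∑ j ∈ Finset.univ.filter (fun j => (1 / 4 : ℝ) ≤ hG.eigenvalues j), c i j) +
          1 / 4) := Finset.sum_le_sum fun i _ => by rw [h1]; exact h4 i
    _ = (∑ j ∈ Finset.univ.filter (fun j => (1 / 4 : ℝ) ≤ hG.eigenvalues j), ∑ i ∈ S, c i j) +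
          1 / 4 * S.card := by
        rw [Finset.sum_add_distrib, Finset.sum_comm]
        simp only [Finset.sum_const, nsmul_eq_mul]
        ring
    _ ≤ (∑ _j ∈ Finset.univ.filter (fun j => (1 / 4 : ℝ) ≤ hG.eigenvalues j), (1 : ℝ)) +
          1 / 4 * S.card := by
        gcongr with j hj
        rw [← h3 j]
        exact Finset.sum_le_sum_of_subset_of_nonneg (Finset.subset_univ _) fun i _ _ => hc0 i j
    _ = _ := by simp

theorem ovM_eig_le {P U : Matrix d d ℂ} (hP : P.IsHermitian) (hPP : P * P = P)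
    (hU : Uᴴ * U = 1) (i : d) : (ovM_isHermitian U hP).eigenvalues i ≤ 1 := by
  rw [← qf_eigen]
  set v : d → ℂ := fun a => ((ovM_isHermitian U hP).eigenvectorUnitary : Matrix d d ℂ) a i with hv
  have hv1 : nm v = 1 := by
    rw [nm, hv, nrm2_col, Real.sqrt_one]
  have hU' : (Uᴴ)ᴴ * Uᴴ = 1 := by
    rw [conjTranspose_conjTranspose]
    exact mul_eq_one_comm.1 hU
  have h1 := re_dot_le v (ovM P U *ᵥ v)
  have h2 : nm (ovM P U *ᵥ v) ≤ nm v := by
    unfold ovM
    simp only [← Matrix.mulVec_mulVec]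
    rw [nm_unitary hU']
    refine (proj_contr hP hPP _).trans ?_
    rw [nm_unitary hU]
    refine (proj_contr hP hPP _).trans ?_
    rw [nm_unitary hU']
    refine (proj_contr hP hPP _).trans ?_
    rw [nm_unitary hU]
  rw [hv1] at h1 h2
  rw [one_mul] at h1
  exact h1.trans h2

end

theorem over_pkt : S_OVER := by
  intro d _ _ k u δ δ' R hk hu hδ' h1 hδ hR
  classical
  have hA := avgRe_isHermitian u
  have hK : (0 : ℝ) < (k : ℝ) + 1 := by positivity
  set S : Finset d := Finset.univ.filter fun i => 1 - δ' ≤ hA.eigenvalues i with hS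
  have hcard : Fintype.card (TopIdx hA (1 - δ')) = S.card := by
    rw [hS, ← Fintype.card_subtype]
  rw [show (Fintype.card (TopIdx (avgRe_isHermitian u) (1 - δ')) : ℝ) = S.card by
    exact_mod_cast hcard]
  set v : d → d → ℂ := fun i a => (hA.eigenvectorUnitary : Matrix d d ℂ) a i with hv
  have hv1 : ∀ i, nm (v i) = 1 := by
    intro i
    rw [nm, hv, nrm2_col, Real.sqrt_one]
  -- the energies
  have hE : ∀ i ∈ S, ∑ l, nm (u l *ᵥ v i - v i) ≤ 71 / 500 * ((k : ℝ) + 1) := by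
    intro i hi
    have hi' := (Finset.mem_filter.1 hi).2
    have e1 : ∑ l, nrm2 (u l *ᵥ v i - v i) = 2 * ((k : ℝ) + 1) * (1 - hA.eigenvalues i) := by
      have e2 : ∀ l, nrm2 (u l *ᵥ v i - v i) = 2 - 2 * qf (u l) (v i) := by
        intro l
        rw [nrm2_sub_unitary (hu l), ← nm_sq, hv1]
        ring
      simp_rw [e2]
      rw [Finset.sum_sub_distrib, ← Finset.mul_sum, ← qf_avgRe (Nat.succ_pos k), hv, qf_eigen]
      simp only [Finset.sum_const, Finset.card_univ, Fintype.card_fin, nsmul_eq_mul]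
      push_cast
      ring
    have e3 : ∑ l, nrm2 (u l *ᵥ v i - v i) ≤ ((k : ℝ) + 1) / 50 := by
      rw [e1]
      have : 1 - hA.eigenvalues i ≤ 1 / 100 := by
        have : 0 ≤ 80 / ((k : ℝ) + 1) := by positivity
        linarith
      nlinarith
    have e5 : (∑ l, nm (u l *ᵥ v i - v i)) ^ 2 ≤
        (Finset.univ : Finset (Fin (k + 1))).card * ∑ l, nm (u l *ᵥ v i - v i) ^ 2 :=
      sq_sum_le_card_mul_sum_sq
    simp_rw [nm_sq] at e5
    rw [Finset.card_univ, Fintype.card_fin] at e5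
    push_cast at e5
    have e6 : (∑ l, nm (u l *ᵥ v i - v i)) ^ 2 ≤ (71 / 500 * ((k : ℝ) + 1)) ^ 2 := by
      refine e5.trans ?_
      nlinarith
    exact (abs_le_of_sq_le_sq' e6 (by positivity)).2
  -- the double sum
  have hlow : (63 / 100 : ℝ) * ((k : ℝ) + 1) * S.card ≤ ∑ l : Fin (k + 1), ∑ i ∈ S,
      qf (ovM (topP (avgRe_isHermitian (fun i : Fin k => u (l.succAbove i))) (1 - δ)) (u l))
        (v i) := by
    rw [Finset.sum_comm]
    have : ∀ i ∈ S, (63 / 100 : ℝ) * ((k : ℝ) + 1) ≤ ∑ l : Fin (k + 1),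
      qf (ovM (topP (avgRe_isHermitian (fun i : Fin k => u (l.succAbove i))) (1 - δ)) (u l))
        (v i) := by
      intro i hi
      have hi' := (Finset.mem_filter.1 hi).2
      have hsum : ∑ l : Fin (k + 1), (361 / 400 - 19 / 10 * nm (u l *ᵥ v i - v i)) ≤
          ∑ l : Fin (k + 1), qf (ovM (topP (avgRe_isHermitian
            (fun i : Fin k => u (l.succAbove i))) (1 - δ)) (u l)) (v i) := by
        refine Finset.sum_le_sum fun l _ => ?_
        refine overlap_lower (topP_isHermitian _ _) (topP_sq _ _) (hu l) (v i) (hv1 i) ?_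
        exact leak hk u hu l δ δ' (hA.eigenvalues i) h1 (v i) (hv1 i) (eig_mulVec hA i) hi'
      refine le_trans ?_ hsum
      rw [Finset.sum_sub_distrib, ← Finset.mul_sum]
      simp only [Finset.sum_const, Finset.card_univ, Fintype.card_fin, nsmul_eq_mul]
      push_cast
      have := hE i hi
      nlinarith
    calc (63 / 100 : ℝ) * ((k : ℝ) + 1) * S.card = ∑ _i ∈ S, (63 / 100 : ℝ) * ((k : ℝ) + 1) := by
          rw [Finset.sum_const, nsmul_eq_mul]; ring
      _ ≤ _ := Finset.sum_le_sum this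
  have hup : ∑ l : Fin (k + 1), ∑ i ∈ S,
      qf (ovM (topP (avgRe_isHermitian (fun i : Fin k => u (l.succAbove i))) (1 - δ)) (u l))
        (v i) ≤ ∑ _l : Fin (k + 1), (R + 1 / 4 * S.card) := by
    refine Finset.sum_le_sum fun l _ => ?_
    refine (top_sum_le (ovM_isHermitian (u l) (topP_isHermitian _ _))
      (ovM_eig_le (topP_isHermitian _ _) (topP_sq _ _) (hu l)) hA S).trans ?_
    have := hR l
    unfold ovc at this
    linarith
  have h3 := hlow.trans hup
  simp only [Finset.sum_const, Finset.card_univ, Fintype.card_fin, nsmul_eq_mul] at h3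
  push_cast at h3
  have h4 : (63 / 100 : ℝ) * S.card ≤ R + 1 / 4 * S.card := by
    have : ((k : ℝ) + 1) * ((63 / 100 : ℝ) * S.card) ≤ ((k : ℝ) + 1) * (R + 1 / 4 * S.card) := by
      linarith
    exact le_of_mul_le_mul_left this hK
  have h5 : (0 : ℝ) ≤ S.card := Nat.cast_nonneg _
  linarith

end Pool.Agent.Helper28.LL
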